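import Pool.Agent.Q176.RE.Def

set_option autoImplicit false

open MeasureTheory Real
open scoped ENNReal

namespace Pool.Agent.Q176.RE

/-! ### entropy inequalities -/

lemma eta_add {x y : ℝ} (hx : 0 ≤ x) (hy : 0 ≤ y) :
    negMulLog (x + y) ≤ negMulLog x + negMulLog y := by
  unfold negMulLog
  have h1 : x * log x ≤ x * log (x + y) := by
    rcases hx.eq_or_lt with h | h
    · rw [← h]; simp
    · exact mul_le_mul_of_nonneg_left (log_le_log h (by linarith)) hx
  have h2 : y * log y ≤ y * log (x + y) := by
    rcases hy.eq_or_lt with h | h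
    · rw [← h]; simp
    · exact mul_le_mul_of_nonneg_left (log_le_log h (by linarith)) hy
  nlinarith

lemma eta_sum {ι : Type} (s : Finset ι) (f : ι → ℝ) (hf : ∀ i ∈ s, 0 ≤ f i) :
    negMulLog (∑ i ∈ s, f i) ≤ ∑ i ∈ s, negMulLog (f i) := by
  classical
  induction s using Finset.induction_on with
  | empty => simp
  | insert a s ha ih =>
    rw [Finset.sum_insert ha, Finset.sum_insert ha]
    have h1 : 0 ≤ f a := hf a (Finset.mem_insert_self _ _)
    have h2 : 0 ≤ ∑ i ∈ s, f i :=
      Finset.sum_nonneg fun i hi => hf i (Finset.mem_insert_of_mem hi)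
    have h3 := ih fun i hi => hf i (Finset.mem_insert_of_mem hi)
    have := eta_add h1 h2
    linarith

/-- the binary entropy of `k / n` with `1 ≤ k ≤ n - 1` is at least that of `1 / n` -/
lemma bin_ge {n k : ℕ} (hk : 1 ≤ k) (hkn : k + 1 ≤ n) :
    binEntropy (1 / n) ≤ binEntropy (k / n) := by
  have hn : (0 : ℝ) < n := by
    have : 0 < n := by omega
    exact_mod_cast this
  have hk1 : (1 : ℝ) ≤ k := by exact_mod_cast hk
  have hk2 : (k : ℝ) + 1 ≤ n := by exact_mod_cast hkn
  have hn2 : (2 : ℝ) ≤ n := by linarith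
  have h1 : (1 / n : ℝ) ∈ Set.Icc (0 : ℝ) 2⁻¹ := by
    refine ⟨by positivity, ?_⟩
    rw [div_le_iff₀ hn]; linarith
  rcases le_total ((k : ℝ) / n) 2⁻¹ with h | h
  · exact binEntropy_strictMonoOn.monotoneOn h1 ⟨by positivity, h⟩
      (div_le_div_of_nonneg_right hk1 hn.le)
  · rw [← binEntropy_one_sub ((k : ℝ) / n)]
    refine binEntropy_strictMonoOn.monotoneOn h1 ⟨?_, ?_⟩ ?_
    · rw [sub_nonneg, div_le_one hn]; linarith
    · norm_num at h ⊢; linarith
    · rw [le_sub_iff_add_le, ← add_div, div_le_one hn]; linarith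

section
variable {X : Type} [Fintype X] [mX : MeasurableSpace X] [DiscreteMeasurableSpace X]

/-- the uniform probability measure -/
noncomputable def unif (X : Type) [Fintype X] [MeasurableSpace X] : Measure X :=
  (Fintype.card X : ℝ≥0∞)⁻¹ • Measure.count

lemma unif_apply (S : Set X) : unif X S = (Fintype.card X : ℝ≥0∞)⁻¹ * (S.ncard : ℝ≥0∞) := by
  have hS : S.Finite := Set.toFinite S
  unfold unif
  rw [Measure.smul_apply, Measure.count_apply (MeasurableSet.of_discrete), smul_eq_mul]
  congr 1
  rw [← hS.cast_ncard_eq]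
  exact ENat.toENNReal_coe _

lemma unif_real (S : Set X) : (unif X).real S = (S.ncard : ℝ) / Fintype.card X := by
  rw [Measure.real, unif_apply]
  simp [div_eq_inv_mul]

lemma unif_prob [Nonempty X] : IsProbabilityMeasure (unif X) := by
  constructor
  rw [unif_apply, Set.ncard_univ, Nat.card_eq_fintype_card]
  refine ENNReal.inv_mul_cancel ?_ (ENNReal.natCast_ne_top _)
  exact_mod_cast Fintype.card_ne_zero

lemma ae_all (p : X → Prop) : (∀ᵐ x ∂(unif X), p x) ↔ ∀ x, p x := by
  rw [ae_iff_of_countable]
  refine forall_congr' fun x => ?_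
  have : unif X {x} ≠ 0 := by
    rw [unif_apply]
    simp
  simp [this]

lemma set_ae {A B : Set X} : A =ᵐ[unif X] B ↔ A = B := by
  rw [Filter.eventuallyEq_set, ae_all]
  exact ⟨fun h => Set.ext h, fun h x => by rw [h]⟩

/-- a map which is not constant has entropy at least `binEntropy (1 / n)` -/
lemma H_ge {α : X → ℕ} (hα : ∃ x y, α x ≠ α y) :
    ENNReal.ofReal (binEntropy (1 / Fintype.card X)) ≤ H (unif X) α := by
  classical
  obtain ⟨x, y, hxy⟩ := hα
  have : Nonempty X := ⟨x⟩
  have := unif_prob (X := X)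
  set n := Fintype.card X with hn
  set i := α x with hi
  set k := (α ⁻¹' {i}).ncard with hk
  have hk1 : 1 ≤ k := by
    rw [hk, Nat.one_le_iff_ne_zero, Ne, Set.ncard_eq_zero]
    exact Set.Nonempty.ne_empty ⟨x, rfl⟩
  have hk2 : k + 1 ≤ n := by
    have h1 : (α ⁻¹' {i}).ncard < (Set.univ : Set X).ncard := by
      apply Set.ncard_lt_ncard _ (Set.toFinite _)
      refine ⟨Set.subset_univ _, fun h => hxy ?_⟩
      exact (h (Set.mem_univ y) : α y = i).symm
    rw [Set.ncard_univ, Nat.card_eq_fintype_card] at h1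
    omega
  have hreal : (unif X).real (α ⁻¹' {i}) = (k : ℝ) / n := unif_real _
  -- the finite set of labels
  set S : Finset ℕ := (Finset.univ.image α).erase i with hS
  have hsum : ∑ j ∈ S, (unif X).real (α ⁻¹' {j}) = 1 - (k : ℝ) / n := by
    have h1 : ∑ j ∈ Finset.univ.image α, (unif X).real (α ⁻¹' {j}) = 1 := by
      rw [← measureReal_biUnion_finset]
      · have : (⋃ b ∈ Finset.univ.image α, α ⁻¹' {b}) = Set.univ := by
          ext z
          simp
        rw [this]
        simp
      · intro a _ b _ hab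
        exact Disjoint.preimage α (Set.disjoint_singleton.2 hab)
      · intro b _
        exact MeasurableSet.of_discrete
    have h2 : i ∈ Finset.univ.image α := Finset.mem_image_of_mem _ (Finset.mem_univ x)
    rw [← Finset.add_sum_erase _ _ h2, hreal] at h1
    linarith
  have hfin : ∑ j ∈ insert i S, ENNReal.ofReal (negMulLog ((unif X).real (α ⁻¹' {j}))) ≤
      H (unif X) α := ENNReal.sum_le_tsum _
  refine le_trans ?_ hfin
  rw [Finset.sum_insert (by simp [hS]), ← ENNReal.ofReal_sum_of_nonneg, ← ENNReal.ofReal_add]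
  · apply ENNReal.ofReal_le_ofReal
    have h3 : negMulLog (1 - (k : ℝ) / n) ≤
        ∑ j ∈ S, negMulLog ((unif X).real (α ⁻¹' {j})) := by
      rw [← hsum]
      exact eta_sum S _ fun j _ => measureReal_nonneg
    have h4 := bin_ge hk1 hk2
    rw [binEntropy_eq_negMulLog_add_negMulLog_one_sub ((k : ℝ) / n)] at h4
    rw [hreal]
    linarith
  · exact negMulLog_nonneg measureReal_nonneg measureReal_le_one
  · exact Finset.sum_nonneg fun j _ => negMulLog_nonneg measureReal_nonneg measureReal_le_one
  · exact fun j _ => negMulLog_nonneg measureReal_nonneg measureReal_le_one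

/-- the partition into one point and the rest -/
lemma H_point [DecidableEq X] (x₀ : X) (h2 : 2 ≤ Fintype.card X) :
    H (unif X) (fun x => if x = x₀ then 1 else 0) =
      ENNReal.ofReal (binEntropy (1 / Fintype.card X)) := by
  have : Nonempty X := ⟨x₀⟩
  have := unif_prob (X := X)
  set n := Fintype.card X with hn
  have hn0 : (0 : ℝ) < n := by
    have : 0 < n := by omega
    exact_mod_cast this
  have hone : (unif X).real ((fun x => if x = x₀ then 1 else 0) ⁻¹' {1}) = 1 / n := by
    have : ((fun x => if x = x₀ then 1 else 0) ⁻¹' {1} : Set X) = {x₀} := by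
      ext x; simp
    rw [this, unif_real]
    simp [hn]
  have hzero : (unif X).real ((fun x => if x = x₀ then 1 else 0) ⁻¹' {0}) = 1 - 1 / n := by
    have : ((fun x => if x = x₀ then 1 else 0) ⁻¹' {0} : Set X) =
        ((fun x => if x = x₀ then 1 else 0) ⁻¹' {1} : Set X)ᶜ := by
      ext x
      by_cases h : x = x₀ <;> simp [h]
    rw [this, measureReal_compl MeasurableSet.of_discrete, hone]
    simp
  unfold H
  rw [tsum_eq_sum (s := {0, 1})]
  · rw [Finset.sum_pair (by norm_num), hone, hzero, ← ENNReal.ofReal_add]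
    · rw [binEntropy_eq_negMulLog_add_negMulLog_one_sub]
      ring_nf
    · rw [← hzero]; exact negMulLog_nonneg measureReal_nonneg measureReal_le_one
    · rw [← hone]; exact negMulLog_nonneg measureReal_nonneg measureReal_le_one
  · intro b hb
    have : ((fun x => if x = x₀ then 1 else 0) ⁻¹' {b} : Set X) = ∅ := by
      ext x
      simp only [Finset.mem_insert, Finset.mem_singleton, not_or] at hb
      by_cases h : x = x₀
      · simp [h, Ne.symm hb.2]
      · simp [h, Ne.symm hb.1]
    rw [this]
    simp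

end

end Pool.Agent.Q176.RE
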