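import Pool.Agent.Q176.RE.A

set_option autoImplicit false

open MeasureTheory Real
open scoped ENNReal

namespace Pool.Agent.Q176.RE

section
variable {X Y G : Type} [Fintype X] [mX : MeasurableSpace X] [DiscreteMeasurableSpace X]
  [Fintype Y] [mY : MeasurableSpace Y] [DiscreteMeasurableSpace Y]
  [Group G] [MulAction G X] [MulAction G Y] [MulAction.IsPretransitive G X]

/-- the translates of a point separate the points -/
lemma sigG_point [DecidableEq X] (x₀ : X) (B : Set X) :
    MeasurableSet[sigG G (fun x : X => if x = x₀ then 1 else 0)] B := by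
  have key : ∀ x : X, MeasurableSet[sigG G (fun x : X => if x = x₀ then 1 else 0)] {x} := by
    intro x
    obtain ⟨g, hg⟩ := MulAction.exists_smul_eq G x x₀
    have h1 : MeasurableSet[MeasurableSpace.comap
        (fun y : X => (if g • y = x₀ then 1 else 0 : ℕ)) ⊤] {x} := by
      refine ⟨{1}, trivial, ?_⟩
      ext y
      simp only [Set.mem_preimage, Set.mem_singleton_iff]
      constructor
      · intro h
        by_cases h2 : g • y = x₀
        · rw [← hg] at h2
          exact MulAction.injective g h2
        · simp [h2] at h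
      · rintro rfl
        simp [hg]
    exact le_iSup (fun g : G => MeasurableSpace.comap
      (fun y : X => (if g • y = x₀ then 1 else 0 : ℕ)) ⊤) g _ h1
  have h2 : B = ⋃ x ∈ B, {x} := by simp
  rw [h2]
  exact MeasurableSet.biUnion (Set.to_countable B) fun x _ => key x

lemma Rok_le (x₀ : X) (h2 : 2 ≤ Fintype.card X) :
    Rok G (unif X) ≤ ENNReal.ofReal (binEntropy (1 / Fintype.card X)) := by
  classical
  rw [← H_point x₀ h2]
  refine iInf_le_of_le (fun x => if x = x₀ then 1 else 0) (iInf_le_of_le Measurable.of_discrete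
    (iInf_le_of_le ?_ le_rfl))
  intro B _
  exact ⟨B, sigG_point x₀ B, Filter.EventuallyEq.rfl⟩

lemma Outer_ge {p : X → Y} (hp : ∃ x y, p x ≠ p y) :
    ENNReal.ofReal (binEntropy (1 / Fintype.card X)) ≤ Outer (mY.comap p) G (unif X) := by
  refine le_iInf fun α => le_iInf fun _ => le_iInf fun hα => ?_
  apply H_ge
  by_contra hc
  push Not at hc
  obtain ⟨x, y, hxy⟩ := hp
  obtain ⟨B', hB', hBB⟩ := hα (p ⁻¹' {p x}) ⟨{p x}, MeasurableSet.of_discrete, rfl⟩
  rw [set_ae] at hBB
  subst hBB
  have hbot : sigG G α ≤ ⊥ := by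
    refine iSup_le fun g => ?_
    rintro B ⟨S, -, rfl⟩
    by_cases h : α x ∈ S
    · have : (fun z => α (g • z)) ⁻¹' S = Set.univ := by
        ext z
        simp [hc (g • z) x, h]
      rw [this]; exact @MeasurableSet.univ X ⊥
    · have : (fun z => α (g • z)) ⁻¹' S = ∅ := by
        ext z
        simp [hc (g • z) x, h]
      rw [this]; exact @MeasurableSet.empty X ⊥
  have h3 := MeasurableSpace.measurableSet_bot_iff.1 (hbot _ hB')
  rcases h3 with h3 | h3
  · have : x ∈ (p ⁻¹' {p x} : Set X) := rfl
    rw [h3] at this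
    exact this
  · have : y ∈ (p ⁻¹' {p x} : Set X) := by rw [h3]; trivial
    exact hxy (this : p y = p x).symm

/-- the conditional probability of a set given the factor, on a finite set -/
lemma condExp_eq {p : X → Y} (A : Set X) (x : X) :
    ((unif X)[A.indicator (fun _ => (1 : ℝ)) | mY.comap p]) x *
      ((p ⁻¹' {p x}).ncard : ℝ) = ((A ∩ p ⁻¹' {p x}).ncard : ℝ) := by
  have : Nonempty X := ⟨x⟩
  have := unif_prob (X := X)
  have hle : mY.comap p ≤ mX := fun S _ => MeasurableSet.of_discrete
  set f : X → ℝ := (unif X)[A.indicator (fun _ => (1 : ℝ)) | mY.comap p] with hf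
  set F : Set X := p ⁻¹' {p x} with hF
  have hFm : MeasurableSet[mY.comap p] F := ⟨{p x}, MeasurableSet.of_discrete, rfl⟩
  -- `f` is constant on fibres
  have hconst : ∀ y ∈ F, f y = f x := by
    intro y hy
    have hm : Measurable[mY.comap p] f := stronglyMeasurable_condExp.measurable
    obtain ⟨S, -, hS⟩ := hm (measurableSet_singleton (f x))
    have h1 : x ∈ f ⁻¹' {f x} := rfl
    rw [← hS] at h1
    have h2 : y ∈ p ⁻¹' S := by
      rw [Set.mem_preimage, show p y = p x from hy]
      exact h1
    rw [hS] at h2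
    exact h2
  have hint : ∫ y in F, f y ∂(unif X) =
      ∫ y in F, A.indicator (fun _ => (1 : ℝ)) y ∂(unif X) :=
    setIntegral_condExp hle (Integrable.of_finite) hFm
  have h1 : ∫ y in F, f y ∂(unif X) = (unif X).real F * f x := by
    rw [setIntegral_congr_fun (hle _ hFm) (g := fun _ => f x) (fun y hy => hconst y hy)]
    simp
  have h2 : ∫ y in F, A.indicator (fun _ => (1 : ℝ)) y ∂(unif X) = (unif X).real (A ∩ F) := by
    rw [setIntegral_indicator MeasurableSet.of_discrete]
    simp [Set.inter_comm]
  rw [h1, h2, unif_real, unif_real] at hint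
  have hn : (Fintype.card X : ℝ) ≠ 0 := by exact_mod_cast Fintype.card_ne_zero
  field_simp at hint
  linarith

end

end Pool.Agent.Q176.RE
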