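import Pool.Agent.Q176.RE.B

set_option autoImplicit false

open MeasureTheory Real
open scoped ENNReal

namespace Pool.Agent.Q176.RE

section
variable {X Y G : Type} [Fintype X] [mX : MeasurableSpace X] [DiscreteMeasurableSpace X]
  [Fintype Y] [mY : MeasurableSpace Y] [DiscreteMeasurableSpace Y]
  [Group G] [MulAction G X] [MulAction G Y] [MulAction.IsPretransitive G X]

/-- the lower bound for the relative entropy -/
noncomputable def cc (n : ℕ) : ℝ := 1 / n * (1 / n * (-log (1 - 1 / n)))

lemma cc_pos {n : ℕ} (hn : 2 ≤ n) : 0 < cc n := by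
  have h2 : (2 : ℝ) ≤ n := by exact_mod_cast hn
  have h0 : (0 : ℝ) < n := by linarith
  have h1 : (1 / n : ℝ) < 1 := by rw [div_lt_one h0]; linarith
  have h3 : (0 : ℝ) < 1 / n := by positivity
  unfold cc
  have h4 : log (1 - 1 / (n : ℝ)) < 0 := log_neg (by linarith) (by linarith)
  have h5 : 0 < -log (1 - 1 / (n : ℝ)) := by linarith
  positivity

/-- a partition which is not measurable with respect to the factor has conditional entropy at
least `cc n` -/
lemma Hc_ge {p : X → Y} {α : X → ℕ} (h : ∃ x y, p x = p y ∧ α x ≠ α y) :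
    ENNReal.ofReal (cc (Fintype.card X)) ≤ Hc (mY.comap p) (unif X) α := by
  obtain ⟨x, y, hxy, hα⟩ := h
  have : Nonempty X := ⟨x⟩
  set n := Fintype.card X with hn
  have hn0 : (0 : ℝ) < n := by exact_mod_cast Fintype.card_pos
  set i := α x with hi
  set F : Set X := p ⁻¹' {p x} with hF
  set A : Set X := α ⁻¹' {i} with hA
  set f : ℝ := ((unif X)[A.indicator (fun _ => (1 : ℝ)) | mY.comap p]) x with hf
  have hfF : f * (F.ncard : ℝ) = ((A ∩ F).ncard : ℝ) := condExp_eq A x
  have h1 : 1 ≤ (A ∩ F).ncard := by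
    rw [Nat.one_le_iff_ne_zero, Ne, Set.ncard_eq_zero]
    exact Set.Nonempty.ne_empty ⟨x, rfl, rfl⟩
  have h2 : (A ∩ F).ncard + 1 ≤ F.ncard := by
    have : (A ∩ F).ncard < F.ncard := by
      apply Set.ncard_lt_ncard _ (Set.toFinite _)
      refine ⟨Set.inter_subset_right, fun hs => hα ?_⟩
      have hy : y ∈ F := hxy.symm
      exact ((hs hy).1 : α y = i).symm
    omega
  have h3 : F.ncard ≤ n := by
    have := Set.ncard_le_card F
    rwa [Nat.card_eq_fintype_card] at this
  have h1' : (1 : ℝ) ≤ ((A ∩ F).ncard : ℝ) := by exact_mod_cast h1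
  have h2' : ((A ∩ F).ncard : ℝ) + 1 ≤ F.ncard := by exact_mod_cast h2
  have h3' : (F.ncard : ℝ) ≤ n := by exact_mod_cast h3
  have hF0 : (0 : ℝ) < F.ncard := by linarith
  have hf1 : 1 / (n : ℝ) ≤ f := by
    rw [div_le_iff₀ hn0]
    have hfpos : 0 < f := by
      by_contra hc
      have : f * (F.ncard : ℝ) ≤ 0 := mul_nonpos_of_nonpos_of_nonneg (not_lt.1 hc) hF0.le
      linarith
    nlinarith
  have hf2 : f ≤ 1 - 1 / n := by
    have h4 : f = 1 - (F.ncard - (A ∩ F).ncard) / F.ncard := by
      field_simp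
      linarith
    rw [h4]
    have h5 : 1 / (n : ℝ) ≤ (F.ncard - (A ∩ F).ncard) / F.ncard := by
      rw [div_le_div_iff₀ hn0 hF0]
      nlinarith
    linarith
  have hinv : (0 : ℝ) < 1 / n := by positivity
  have heta : 1 / (n : ℝ) * (-log (1 - 1 / n)) ≤ negMulLog f := by
    unfold negMulLog
    have h6 : log f ≤ log (1 - 1 / n) := log_le_log (by linarith) hf2
    have h7 : log (1 - 1 / (n : ℝ)) ≤ 0 := log_nonpos (by linarith) (by linarith)
    nlinarith
  have hnonneg : 0 ≤ 1 / (n : ℝ) * (-log (1 - 1 / n)) := by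
    have h7 : log (1 - 1 / (n : ℝ)) ≤ 0 := log_nonpos (by linarith) (by linarith)
    have : 0 ≤ -log (1 - 1 / (n : ℝ)) := by linarith
    positivity
  -- the integrand at `x`
  have hpt : ENNReal.ofReal (1 / (n : ℝ) * (-log (1 - 1 / n))) ≤
      ∑' j, ENNReal.ofReal (negMulLog
        ((((unif X)[(α ⁻¹' {j}).indicator (fun _ => (1 : ℝ)) | mY.comap p]) x))) :=
    le_trans (ENNReal.ofReal_le_ofReal heta) (ENNReal.le_tsum i)
  have hmass : unif X {x} = ENNReal.ofReal (1 / n) := by
    rw [unif_apply, Set.ncard_singleton, ← hn, one_div, ENNReal.ofReal_inv_of_pos hn0]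
    simp
  calc ENNReal.ofReal (cc n)
      = ENNReal.ofReal (1 / (n : ℝ) * (-log (1 - 1 / n))) * unif X {x} := by
        rw [hmass, ← ENNReal.ofReal_mul hnonneg]
        congr 1
        unfold cc
        ring
    _ ≤ (∑' j, ENNReal.ofReal (negMulLog
        ((((unif X)[(α ⁻¹' {j}).indicator (fun _ => (1 : ℝ)) | mY.comap p]) x)))) *
          unif X {x} := mul_le_mul_left hpt _
    _ = ∫⁻ z in {x}, ∑' j, ENNReal.ofReal (negMulLog
        ((((unif X)[(α ⁻¹' {j}).indicator (fun _ => (1 : ℝ)) | mY.comap p]) z))) ∂(unif X) := by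
        rw [lintegral_singleton]
    _ ≤ Hc (mY.comap p) (unif X) α := by
        unfold Hc
        exact setLIntegral_le_lintegral _ _

lemma Rel_ge {p : X → Y} (hpe : ∀ (g : G) (x : X), p (g • x) = g • p x)
    (hp : ∃ x y, x ≠ y ∧ p x = p y) :
    ENNReal.ofReal (cc (Fintype.card X)) ≤ Rel (mY.comap p) G (unif X) := by
  refine le_iInf fun α => le_iInf fun _ => le_iInf fun hα => ?_
  apply Hc_ge
  by_contra hc
  push Not at hc
  obtain ⟨x, y, hne, hxy⟩ := hp
  have hle : sigG G α ⊔ mY.comap p ≤ (⊤ : MeasurableSpace Y).comap p := by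
    refine sup_le (iSup_le fun g => ?_) (MeasurableSpace.comap_mono le_top)
    rintro B ⟨S, -, rfl⟩
    refine ⟨p '' ((fun z => α (g • z)) ⁻¹' S), trivial, ?_⟩
    ext z
    constructor
    · rintro ⟨w, hw, hwz⟩
      have h1 : α (g • w) = α (g • z) := hc _ _ (by rw [hpe, hpe, hwz])
      simp only [Set.mem_preimage] at hw ⊢
      rwa [← h1]
    · intro hz
      exact ⟨z, hz, rfl⟩
  obtain ⟨B', hB', hBB⟩ := hα {x} MeasurableSet.of_discrete
  rw [set_ae] at hBB
  subst hBB
  obtain ⟨S, -, hS⟩ := hle _ hB'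
  have h1 : x ∈ p ⁻¹' S := by rw [hS]; rfl
  have h2 : y ∈ p ⁻¹' S := by
    rw [Set.mem_preimage, ← hxy]
    exact h1
  rw [hS] at h2
  exact hne (h2 : y = x).symm

lemma ergodic [Nonempty X] : ErgodicSMul G X (unif X) where
  measure_preimage_smul c s _ := by
    rw [unif_apply, unif_apply]
    congr 2
    exact Set.ncard_preimage_of_injective_subset_range (MulAction.injective c)
      (by rw [(MulAction.surjective c).range_eq]; exact Set.subset_univ _)
  aeconst_of_forall_preimage_smul_ae_eq {s} _ hs := by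
    have hs' : ∀ g : G, (fun x : X => g • x) ⁻¹' s = s := fun g => set_ae.1 (hs g)
    rcases s.eq_empty_or_nonempty with h | ⟨x, hx⟩
    · rw [h]
      exact Filter.EventuallyConst.const _
    · have : s = Set.univ := by
        ext y
        simp only [Set.mem_univ, iff_true]
        obtain ⟨g, rfl⟩ := MulAction.exists_smul_eq G y x
        rw [← hs' g]
        exact hx
      rw [this]
      exact Filter.EventuallyConst.const _

/-- the main example: a transitive action on a finite set and a factor which is neither injective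
nor constant -/
theorem fails {p : X → Y} (hpe : ∀ (g : G) (x : X), p (g • x) = g • p x)
    (hp1 : ∃ x y, p x ≠ p y) (hp2 : ∃ x y, x ≠ y ∧ p x = p y) : Fails G := by
  obtain ⟨x, y, hxy⟩ := hp1
  have : Nonempty X := ⟨x⟩
  have hcard : 2 ≤ Fintype.card X := by
    have : Nontrivial X := ⟨x, y, fun h => hxy (by rw [h])⟩
    exact Fintype.one_lt_card
  refine ⟨X, Y, mX, mY, inferInstance, inferInstance, inferInstance, inferInstance,
    fun g => Measurable.of_discrete, fun g => Measurable.of_discrete,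
    unif X, (unif X).map p, unif_prob, ergodic, p, Measurable.of_discrete, hpe, rfl, ?_⟩
  have h1 := Rok_le (G := G) x hcard
  have h2 : ENNReal.ofReal (binEntropy (1 / Fintype.card X)) ≤
      Outer (mY.comap p) G (unif X) := Outer_ge ⟨x, y, hxy⟩
  have h3 := Rel_ge (G := G) (mY := mY) hpe hp2
  have h4 : 0 < ENNReal.ofReal (cc (Fintype.card X)) := ENNReal.ofReal_pos.2 (cc_pos hcard)
  calc Rok G (unif X) ≤ ENNReal.ofReal (binEntropy (1 / Fintype.card X)) := h1
    _ < ENNReal.ofReal (binEntropy (1 / Fintype.card X)) +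
        ENNReal.ofReal (cc (Fintype.card X)) := ENNReal.lt_add_right ENNReal.ofReal_ne_top h4.ne'
    _ ≤ _ := add_le_add h2 h3

end

end Pool.Agent.Q176.RE
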