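import Mathlib

set_option autoImplicit false

/-!
# Rokhlin entropy, relative Rokhlin entropy, outer Rokhlin entropy

A countable Borel partition of `X` is given by a measurable map `α : X → ℕ` (its pieces are the sets
`α ⁻¹' {i}`, empty pieces are allowed and do not contribute to the entropy).
-/

open MeasureTheory Real
open scoped ENNReal

namespace Pool.Agent.Q176.RE

/-- Shannon entropy of the partition `α`. -/
noncomputable def H {X : Type} [MeasurableSpace X] (μ : Measure X) (α : X → ℕ) : ℝ≥0∞ :=
  ∑' i, ENNReal.ofReal (negMulLog (μ.real (α ⁻¹' {i})))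

/-- Conditional Shannon entropy `H(α | F)`: the integral of the entropies of the conditional
probabilities of the pieces given the `σ`-algebra `F`. -/
noncomputable def Hc {X : Type} (F : MeasurableSpace X) [mX : MeasurableSpace X] (μ : Measure X)
    (α : X → ℕ) : ℝ≥0∞ :=
  ∫⁻ x, ∑' i, ENNReal.ofReal
    (negMulLog ((μ[(α ⁻¹' {i}).indicator (fun _ => (1 : ℝ)) | F]) x)) ∂μ

/-- `σ-alg_G(α)`: the smallest `G`-invariant `σ`-algebra containing the pieces of `α`. -/
def sigG {X : Type} (G : Type) [Group G] [MulAction G X] (α : X → ℕ) : MeasurableSpace X :=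
  ⨆ g : G, MeasurableSpace.comap (fun x => α (g • x)) ⊤

/-- Every member of the `σ`-algebra `C` is, modulo a `μ`-null set, a member of `m`. -/
def SubMod {X : Type} (C m : MeasurableSpace X) [mX : MeasurableSpace X] (μ : Measure X) : Prop :=
  ∀ B : Set X, MeasurableSet[C] B → ∃ B' : Set X, MeasurableSet[m] B' ∧ B =ᵐ[μ] B'

/-- Rokhlin entropy. -/
noncomputable def Rok {X : Type} [mX : MeasurableSpace X] (G : Type) [Group G] [MulAction G X]
    (μ : Measure X) : ℝ≥0∞ :=
  ⨅ (α : X → ℕ) (_ : Measurable α) (_ : SubMod mX (sigG G α) μ), H μ α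

/-- Relative Rokhlin entropy given the `σ`-algebra `F`. -/
noncomputable def Rel {X : Type} (F : MeasurableSpace X) [mX : MeasurableSpace X]
    (G : Type) [Group G] [MulAction G X] (μ : Measure X) : ℝ≥0∞ :=
  ⨅ (α : X → ℕ) (_ : Measurable α) (_ : SubMod mX (sigG G α ⊔ F) μ), Hc F μ α

/-- Outer Rokhlin entropy of the `σ`-algebra `F` inside `X`. -/
noncomputable def Outer {X : Type} (F : MeasurableSpace X) [mX : MeasurableSpace X]
    (G : Type) [Group G] [MulAction G X] (μ : Measure X) : ℝ≥0∞ :=
  ⨅ (α : X → ℕ) (_ : Measurable α) (_ : SubMod F (sigG G α) μ), H μ α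

/-- The negated form of the question for the group `G`: an ergodic probability measure preserving
action of `G` on a standard Borel space `(X, μ)` and a factor `p : (X, μ) → (Y, ν)` with
`h^Rok_G(X) < h^Rok_{G,X}(Y) + h^Rok_G(X | Σ)`, where `Σ = p⁻¹(Borel sets of Y)`. -/
def Fails (G : Type) [Group G] : Prop :=
  ∃ (X Y : Type) (_ : MeasurableSpace X) (mY : MeasurableSpace Y)
    (_ : StandardBorelSpace X) (_ : StandardBorelSpace Y)
    (_ : MulAction G X) (_ : MulAction G Y)
    (_ : ∀ g : G, Measurable (fun x : X => g • x)) (_ : ∀ g : G, Measurable (fun y : Y => g • y))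
    (μ : Measure X) (ν : Measure Y) (_ : IsProbabilityMeasure μ) (_ : ErgodicSMul G X μ)
    (p : X → Y),
    Measurable p ∧ (∀ (g : G) (x : X), p (g • x) = g • p x) ∧ μ.map p = ν ∧
      Rok G μ < Outer (mY.comap p) G μ + Rel (mY.comap p) G μ

end Pool.Agent.Q176.RE
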